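import Pool.Agent.Q103.SF.Stm1
import Pool.Agent.TH143.GE.Wei
import Pool.Agent.TH143.GE.Form

/-! # Curves of genus at most one are rational or elliptic -/

set_option autoImplicit false

namespace Pool.Agent.Q111.SF

open FF
open Pool.Agent.W603.LV (canDeg)

/-- the discriminant of a cubic without double roots -/
theorem disc_ne {a b : ℂ} (h : ∀ e : ℂ, e ^ 3 + a * e + b = 0 → 3 * e ^ 2 + a ≠ 0) :
    4 * a ^ 3 + 27 * b ^ 2 ≠ 0 := by
  intro h0
  by_cases ha : a = 0
  · subst ha
    have hb : b = 0 := by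
      have h1 : b ^ 2 = 0 := by linear_combination h0 / 27
      exact pow_eq_zero_iff two_ne_zero |>.1 h1
    subst hb
    exact h 0 (by ring) (by ring)
  · have h2 : (2 * a) ≠ 0 := mul_ne_zero two_ne_zero ha
    refine h (-(3 * b) / (2 * a)) ?_ ?_
    · field_simp
      linear_combination (-b) * h0
    · field_simp
      linear_combination h0

theorem cls : Pool.Agent.Q103.SF.S_cls := by
  intro L _ _ _ hL
  rcases lt_or_eq_of_le hL with h0 | h0
  · exact Or.inl (Pool.Agent.TH143.GE.rational_of_neg h0)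
  · right
    obtain ⟨x, y, a, b, -, hxy, -, hgen, hroot⟩ := Pool.Agent.TH143.GE.weier (k := ℂ) (F := L) h0
    refine ⟨a, b, x, y, disc_ne hroot, hxy, ?_⟩
    rw [eq_top_iff]
    intro f _
    obtain ⟨r, s, hf⟩ := hgen f
    have key : ∀ p : MvPolynomial (Fin 2) ℂ,
        MvPolynomial.aeval ![x, y] p ∈ IntermediateField.adjoin ℂ ({x, y} : Set L) := by
      intro p
      have h1 : MvPolynomial.aeval ![x, y] p ∈ Algebra.adjoin ℂ (Set.range ![x, y]) := by
        rw [Algebra.adjoin_range_eq_range_aeval]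
        exact ⟨p, rfl⟩
      refine (Algebra.adjoin_le ?_ : Algebra.adjoin ℂ (Set.range ![x, y]) ≤
        (IntermediateField.adjoin ℂ ({x, y} : Set L)).toSubalgebra) h1
      rintro _ ⟨i, rfl⟩
      apply IntermediateField.subset_adjoin
      fin_cases i <;> simp
    rw [hf]
    exact div_mem (key r) (key s)

end Pool.Agent.Q111.SF
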